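import Mathlib
import Pool.Agent.Lib_helper73.INS.Psp

set_option autoImplicit false

namespace Pool.Agent.Results.MP_cd51d2_nt.EulerProgressions

/-- `n` is composite: a product of two integers greater than `1`. -/
def Composite (n : ℕ) : Prop := ∃ b c : ℕ, 1 < b ∧ 1 < c ∧ n = b * c

/-- `n` is a (Fermat) pseudoprime to base `a`: composite, with `a ^ (n - 1) ≡ 1 (mod n)`. -/
def IsPseudoprime (a n : ℕ) : Prop := Composite n ∧ a ^ (n - 1) ≡ 1 [MOD n]

/-- `n` is an Euler pseudoprime to base `a`: odd, composite, prime to `a`, with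
`a ^ ((n - 1) / 2) ≡ (a / n) (mod n)`, where `(a / n)` is the Jacobi symbol. -/
def IsEulerPseudoprime (a n : ℕ) : Prop :=
  Odd n ∧ Composite n ∧ Nat.gcd a n = 1 ∧
    (a : ℤ) ^ ((n - 1) / 2) ≡ jacobiSym (a : ℤ) n [ZMOD n]

/-- The sets `{n₁, n₂, n₃}` with `n₁ < n₂ < n₃` and `n₂ - n₁ = n₃ - n₂`, all of whose elements are
pseudoprimes to base `a`, and even Euler pseudoprimes to base `a`. -/
def progressions (a : ℕ) : Set (Finset ℕ) :=
  {S | ∃ n₁ n₂ n₃ : ℕ, n₁ < n₂ ∧ n₂ < n₃ ∧ n₂ - n₁ = n₃ - n₂ ∧ S = {n₁, n₂, n₃} ∧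
    ∀ n ∈ S, IsPseudoprime a n ∧ IsEulerPseudoprime a n}

/-- For every even `a ≥ 2` there are infinitely many arithmetic progressions of three pseudoprimes
to base `a`, and the terms can be Euler pseudoprimes. -/
theorem result : ∀ a : ℕ, 2 ≤ a → Even a → (progressions a).Infinite := by
  intro a ha hev hfin
  -- the finitely many sets would be bounded
  obtain ⟨N, hN⟩ : ∃ N : ℕ, ∀ S ∈ progressions a, ∀ n ∈ S, n ≤ N := by
    refine ⟨∑ S ∈ hfin.toFinset, ∑ n ∈ S, n, fun S hS n hn => ?_⟩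
    calc n ≤ ∑ n ∈ S, n := Finset.single_le_sum (f := fun n => n) (fun _ _ => Nat.zero_le _) hn
      _ ≤ ∑ S ∈ hfin.toFinset, ∑ n ∈ S, n :=
        Finset.single_le_sum (f := fun S : Finset ℕ => ∑ n ∈ S, n) (fun _ _ => Nat.zero_le _)
          (hfin.mem_toFinset.2 hS)
  obtain ⟨n, d, hn, hd, h⟩ := InsPsp.step ha hev N
  have hmem : ({n, n + d, n + 2 * d} : Finset ℕ) ∈ progressions a := by
    refine ⟨n, n + d, n + 2 * d, by omega, by omega, by omega, rfl, fun m hm => ?_⟩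
    obtain ⟨h1, h2, h3, h4, h5⟩ := h m hm
    refine ⟨⟨h1, ?_⟩, h2, h1, h3, ?_⟩
    · obtain ⟨e, he⟩ := h2
      have h6 : (m - 1) / 2 = e := by omega
      have h7 : m - 1 = e * 2 := by omega
      rw [h6] at h4
      have h8 := h4.pow 2
      rw [← pow_mul, one_pow, ← h7] at h8
      exact (Int.natCast_modEq_iff).1 (by push_cast; exact h8)
    · rw [h5]
      exact h4
  have := hN _ hmem n (by simp)
  omega

end Pool.Agent.Results.MP_cd51d2_nt.EulerProgressions
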